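import Pool.Agent.Helper5.ST.GoalsB

/-! Packet CHAIN of MP_f1caa3_al. helper80. -/

namespace Pool.Agent.Helper80.ST

open Pool.Agent.Helper5.Gap Pool.Agent.Helper5.ST
open scoped InnerProductSpace commutatorElement

universe u

section
variable {G : Type u} [Group G]

theorem ball_sub {X Y : Set G} {ℓ : ℕ} (h : Y ⊆ ball X ℓ) (n : ℕ) : ball Y n ⊆ ball X (n * ℓ) := by
  rintro g ⟨l, hl, hx, rfl⟩
  induction l generalizing n with
  | nil => simpa using one_mem_ball (X := X) (n * ℓ)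
  | cons a l ih =>
    obtain ⟨n, rfl⟩ : ∃ m, n = m + 1 := ⟨n - 1, by simp at hl; omega⟩
    rw [List.prod_cons, add_mul, one_mul, add_comm]
    refine mul_mem_ball ?_ (ih n (by simpa using hl) fun x hx' => hx x (List.mem_cons_of_mem _ hx'))
    rcases hx a List.mem_cons_self with h1 | h1
    · exact h h1
    · have := inv_mem_ball (h h1); rwa [inv_inv] at this

theorem ulen_mono_succ (ℓ₀ K i : ℕ) : ulen ℓ₀ K i ≤ ulen ℓ₀ K (i + 1) := by
  show ulen ℓ₀ K i ≤ 4 * ulen ℓ₀ K i + 2 * (K * ℓ₀)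
  omega

theorem ulen_mono (ℓ₀ K : ℕ) : Monotone (ulen ℓ₀ K) := monotone_nat_of_le_succ (ulen_mono_succ ℓ₀ K)

theorem UU_ball {X S₀ : Set G} {ℓ₀ K : ℕ} (h : S₀ ⊆ ball X ℓ₀) (i : ℕ) :
    ∀ s ∈ UU S₀ K i, s ∈ ball X (ulen ℓ₀ K i) := by
  induction i with
  | zero => exact fun s hs => h hs
  | succ i ih =>
    rintro s ⟨g, hg, u, hu, v, hv, rfl⟩
    have h1 := commutator_mem_ball (ih u hu) (ih v hv)
    have h2 := conj_mem_ball (ball_sub h K hg) h1
    refine ball_mono ?_ h2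
    show _ ≤ 4 * ulen ℓ₀ K i + 2 * (K * ℓ₀)
    omega

variable {V : Type u} [NormedAddCommGroup V] [InnerProductSpace ℝ V]

theorem Nr.mono {π : G →* (V ≃ₗᵢ[ℝ] V)} {E : Submodule ℝ V} {x y : ℝ} {g : G} (h : Nr π E x g)
    (hxy : x ≤ y) : Nr π E y g := fun v hv =>
  (h v hv).trans (mul_le_mul_of_nonneg_right hxy (norm_nonneg _))

theorem a_le (i : ℕ) : (1 / 2 : ℝ) * (1 / 4) ^ (2 ^ i) ≤ 1 / 8 := by
  have : (1 / 4 : ℝ) ^ (2 ^ i) ≤ (1 / 4) ^ 1 :=
    pow_le_pow_of_le_one (by norm_num) (by norm_num) Nat.one_le_two_pow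
  linarith

end

theorem chain (hN : SNrApi.{u}) : SChain.{u} := by
  intro G _ X V _ _ π b E _ β ε hA S₀ ℓ₀ K r L hS hNr hLr he hL
  have api := hN G X V π b E β ε hA
  set ℓ := ulen ℓ₀ K r with hℓ
  set e : ℝ := ε * ℓ with hedef
  have he0 : 0 ≤ e := mul_nonneg hA.ε0 (Nat.cast_nonneg _)
  have he1 : 320 * e ≤ 1 := by rw [hedef]; linarith
  have hε := hA.ε0
  have hβ := hA.β0.le
  have hlen : ∀ i ≤ r, (ulen ℓ₀ K i : ℝ) * ε ≤ e := by
    intro i hi
    rw [hedef, mul_comm]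
    have : (ulen ℓ₀ K i : ℝ) ≤ ℓ := by exact_mod_cast ulen_mono ℓ₀ K hi
    gcongr
  -- near identity along the chain
  have claim : ∀ i ≤ r, ∀ s ∈ UU S₀ K i, Nr π E ((1 / 2) * (1 / 4) ^ (2 ^ i) + 40 * e) s := by
    intro i
    induction i with
    | zero =>
      intro _ s hs
      refine Nr.mono (hNr s hs) ?_
      norm_num
      linarith
    | succ i ih =>
      intro hi s hs
      have hs' := hs
      obtain ⟨g, hg, u, hu, v, hv, rfl⟩ := hs
      have hib := UU_ball (K := K) hS i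
      have hgb := ball_sub hS K hg
      have nu := ih (by omega) u hu
      have nv := ih (by omega) v hv
      set a : ℝ := (1 / 2) * (1 / 4) ^ (2 ^ i) with ha
      have ha0 : 0 ≤ a := by positivity
      have ha1 : a ≤ 1 / 8 := a_le i
      have hx0 : 0 ≤ a + 40 * e := by positivity
      have c1 := (api _ _ u v (hib u hu) (hib v hv)).2.2.2.2.2.2.1 _ _ hx0 hx0 nu nv
      have hy0 : 0 ≤ 2 * (a + 40 * e) * (a + 40 * e)
          + 4 * (((ulen ℓ₀ K i : ℕ) + (ulen ℓ₀ K i : ℕ) : ℝ) * ε) := by positivity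
      have c2 := (api _ _ g ⁅u, v⁆ hgb (commutator_mem_ball (hib u hu) (hib v hv))).2.2.2.2.2.1 _
        hy0 c1
      refine Nr.mono c2 ?_
      have h1 := hlen (i + 1) hi
      have h2 : (ulen ℓ₀ K (i + 1) : ℝ) = 4 * ulen ℓ₀ K i + 2 * (K * ℓ₀) := by
        show ((4 * ulen ℓ₀ K i + 2 * (K * ℓ₀) : ℕ) : ℝ) = _
        push_cast; ring
      rw [h2] at h1
      have h3 : (1 / 2 : ℝ) * (1 / 4) ^ (2 ^ (i + 1)) = 2 * a ^ 2 := by
        rw [ha, pow_succ, pow_mul]; ring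
      rw [h3]
      have h4 : 0 ≤ (K * ℓ₀ : ℝ) * ε := by positivity
      push_cast
      nlinarith [mul_nonneg ha0 he0]
  intro s hs
  refine ⟨UU_ball hS r s hs, ?_⟩
  obtain ⟨i, rfl⟩ : ∃ i, r = i + 1 := ⟨r - 1, by omega⟩
  obtain ⟨g, hg, u, hu, v, hv, rfl⟩ := hs
  have hib := UU_ball (K := K) hS i
  have hgb := ball_sub hS K hg
  have hub := hib u hu
  have hvb := hib v hv
  have h2 : (ℓ : ℝ) = 4 * ulen ℓ₀ K i + 2 * (K * ℓ₀) := by
    show ((4 * ulen ℓ₀ K i + 2 * (K * ℓ₀) : ℕ) : ℝ) = _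
    push_cast; ring
  set m : ℝ := (ulen ℓ₀ K i : ℝ) with hm
  have hm0 : 0 ≤ m := Nat.cast_nonneg _
  set κ : ℝ := ((K * ℓ₀ : ℕ) : ℝ) with hκ
  have hκ' : κ = K * ℓ₀ := by rw [hκ]; push_cast; ring
  have hκ0 : 0 ≤ κ := Nat.cast_nonneg _
  rw [← hκ'] at h2
  have hl0 : (0 : ℝ) ≤ ℓ := Nat.cast_nonneg _
  have ha : (1 / 2 : ℝ) * (1 / 4) ^ (2 ^ i) ≤ e := by
    have : (1 / 4 : ℝ) ^ (2 ^ i) ≤ (1 / 4) ^ (2 ^ L) :=
      pow_le_pow_of_le_one (by norm_num) (by norm_num) (Nat.pow_le_pow_right (by norm_num) (by omega))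
    rw [hedef]; linarith
  have nu : Nr π E (41 * e) u := Nr.mono (claim i (by omega) u hu) (by linarith)
  have nv : Nr π E (41 * e) v := Nr.mono (claim i (by omega) v hv) (by linarith)
  have h41 : 0 ≤ 41 * e := by positivity
  -- the cocycle
  have b1 : b 1 = 0 := by
    have := hA.coc 1 1
    rw [mul_one, Walk.rep_one] at this
    simpa using this
  have binv : ∀ x : G, b x⁻¹ = - π x⁻¹ (b x) := by
    intro x
    have := hA.coc x⁻¹ x
    rw [inv_mul_cancel, b1] at this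
    exact eq_neg_of_add_eq_zero_left this.symm
  have bconj : ∀ x y : G, b (x * y * x⁻¹) = b x - π (x * y * x⁻¹) (b x) + π x (b y) := by
    intro x y
    rw [hA.coc (x * y) x⁻¹, hA.coc x y]
    have : π (x * y) (b x⁻¹) = - π (x * y * x⁻¹) (b x) := by
      rw [Walk.rep_mul π (x * y) x⁻¹, binv x, map_neg]
    rw [this]; abel
  have bcomm : b ⁅u, v⁆ = (b u - π (u * v * u⁻¹) (b u)) + (π u (b v) - π ⁅u, v⁆ (b v)) := by
    have h1 : ⁅u, v⁆ = (u * v * u⁻¹) * v⁻¹ := rfl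
    rw [h1, hA.coc (u * v * u⁻¹) v⁻¹, bconj u v]
    have : π (u * v * u⁻¹) (b v⁻¹) = - π (u * v * u⁻¹ * v⁻¹) (b v) := by
      rw [Walk.rep_mul π (u * v * u⁻¹) v⁻¹, binv v, map_neg]
    rw [this]; abel
  -- norms
  have bu : ‖b u‖ ≤ m * β := (api _ _ u u hub hub).1
  have bv : ‖b v‖ ≤ m * β := (api _ _ v v hvb hvb).1
  have bg : ‖b g‖ ≤ κ * β := (api _ _ g g hgb hgb).1
  have hcb := commutator_mem_ball hub hvb
  have bc : ‖b ⁅u, v⁆‖ ≤ (4 * m) * β := by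
    have := (api _ _ ⁅u, v⁆ ⁅u, v⁆ hcb hcb).1
    refine this.trans (le_of_eq ?_)
    push_cast; ring
  -- Nr of the conjugate and the commutator
  have n1 : Nr π E (43 * e) (u * v * u⁻¹) := by
    refine Nr.mono ((api _ _ u v hub hvb).2.2.2.2.2.1 _ h41 nv) ?_
    have := hlen i (by omega)
    linarith
  have n2 : Nr π E (19 * e) ⁅u, v⁆ := by
    refine Nr.mono ((api _ _ u v hub hvb).2.2.2.2.2.2.1 _ _ h41 h41 nu nv) ?_
    have h5 : 4 * (m * ε) ≤ e := by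
      rw [hedef, h2]
      nlinarith [mul_nonneg hκ0 hε]
    nlinarith
  have n3 : Nr π E (21 * e) (g * ⁅u, v⁆ * g⁻¹) := by
    refine Nr.mono ((api _ _ g ⁅u, v⁆ hgb hcb).2.2.2.2.2.1 _ (by positivity) n2) ?_
    have h5 : 2 * (κ * ε) ≤ e := by
      rw [hedef, h2]
      nlinarith [mul_nonneg hm0 hε]
    linarith
  have hu1 : (1 : G) ∈ ball X 0 := one_mem_ball 0
  have P8 : ∀ (x : ℝ) (y : G) (k : ℕ), 0 ≤ x → y ∈ ball X k → Nr π E x y → ∀ w,
      ‖E.starProjection (π y w - w)‖ ≤ x * ‖w‖ := by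
    intro x y k hx hy hn w
    exact (api _ _ y 1 hy hu1).2.2.2.2.2.2.2 x hx hn w
  have p1 : ‖E.starProjection (b ⁅u, v⁆)‖ ≤ 103 * e * (m * β) := by
    rw [bcomm, map_add]
    refine (norm_add_le _ _).trans ?_
    have q1 : ‖E.starProjection (b u - π (u * v * u⁻¹) (b u))‖ ≤ 43 * e * (m * β) := by
      rw [← neg_sub, map_neg, norm_neg]
      refine (P8 _ _ _ (by positivity) (conj_mem_ball hub hvb) n1 _).trans ?_
      gcongr
    have q2 : ‖E.starProjection (π u (b v) - π ⁅u, v⁆ (b v))‖ ≤ 41 * e * (m * β) + 19 * e * (m * β) := by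
      have : π u (b v) - π ⁅u, v⁆ (b v) = (π u (b v) - b v) - (π ⁅u, v⁆ (b v) - b v) := by abel
      rw [this, map_sub]
      refine (norm_sub_le _ _).trans (add_le_add ?_ ?_)
      · refine (P8 _ _ _ (by positivity) hub nu _).trans ?_
        gcongr
      · refine (P8 _ _ _ (by positivity) hcb n2 _).trans ?_
        gcongr
    linarith
  rw [bconj g, map_add]
  refine (norm_add_le _ _).trans ?_
  have r1 : ‖E.starProjection (b g - π (g * ⁅u, v⁆ * g⁻¹) (b g))‖ ≤ 21 * e * (κ * β) := by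
    rw [← neg_sub, map_neg, norm_neg]
    refine (P8 _ _ _ (by positivity) (conj_mem_ball hgb hcb) n3 _).trans ?_
    gcongr
  have r2 : ‖E.starProjection (π g (b ⁅u, v⁆))‖ ≤ 103 * e * (m * β) + κ * ε * (4 * m * β) := by
    refine ((api _ _ g g hgb hgb).2.2.1 _).trans (add_le_add p1 ?_)
    gcongr
  have hml : m ≤ ℓ := by rw [h2]; linarith
  have hkl : κ ≤ ℓ := by rw [h2]; linarith
  have h4ml : 4 * m ≤ ℓ := by rw [h2]; linarith
  have f1 : 21 * e * (κ * β) ≤ 21 * e * (ℓ * β) := by gcongr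
  have f2 : 103 * e * (m * β) ≤ 103 * e * (ℓ * β) := by gcongr
  have f3 : κ * ε * (4 * m * β) ≤ e * (ℓ * β) := by
    rw [hedef, mul_comm ε]; gcongr
  have f4 : 170 * β * ε * (ℓ : ℝ) ^ 2 = 170 * (e * (ℓ * β)) := by rw [hedef]; ring
  rw [f4]
  have f5 : 0 ≤ e * (ℓ * β) := by positivity
  linarith

end Pool.Agent.Helper80.ST
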